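import Pool.Agent.KS6_4.ZT.Main

/-!
# MP_12e153_co, Q1 for all finite abelian groups

For `m ≥ 1` and every finite abelian group `G` whose order divides `m` (for instance `ZMod m`, or
any abelian group of order `m`), `R(τ_{m+1}(4), G) = R(τ_{m+1}(4), 2) = m + 1`.
-/

open scoped Classical

set_option autoImplicit false

namespace Pool.Agent.Results.MP_12e153_co.AllAbelianGroups

open Pool.Agent.W593.ZT Pool.Agent.KS6_4.ZT

/-- Every `G`-colouring `c` of the edges of the complete graph on `Fin n` has a zero-sum tree with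
`m + 1` vertices (`m` edges) and diameter at most `4`. The tree `T` on `Fin (m + 1)` is placed in
the complete graph by the injection `f`; each edge `u v` of `T` is counted once, with `u < v`. -/
def ZeroSum (m n : ℕ) (G : Type) [AddCommGroup G] : Prop :=
  ∀ c : Fin n → Fin n → G, (∀ a b, c a b = c b a) →
    ∃ T : SimpleGraph (Fin (m + 1)), T.IsTree ∧ T.diam ≤ 4 ∧
      ∃ f : Fin (m + 1) → Fin n, Function.Injective f ∧
        (∑ u : Fin (m + 1), ∑ v : Fin (m + 1),
          (if T.Adj u v ∧ u < v then c (f u) (f v) else (0 : G))) = 0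

/-- Every colouring of the edges of the complete graph on `Fin n` with two colours has a
monochromatic tree with `m + 1` vertices and diameter at most `4`. -/
def Mono (m n : ℕ) : Prop :=
  ∀ c : Fin n → Fin n → Fin 2, (∀ a b, c a b = c b a) →
    ∃ T : SimpleGraph (Fin (m + 1)), T.IsTree ∧ T.diam ≤ 4 ∧
      ∃ f : Fin (m + 1) → Fin n, Function.Injective f ∧ ∃ col : Fin 2,
        ∀ u v : Fin (m + 1), T.Adj u v → c (f u) (f v) = col

theorem zeroSum_of_le {m n : ℕ} (hm : 1 ≤ m) (hn : m + 1 ≤ n) (G : Type) [AddCommGroup G]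
    [Finite G] (hG : Nat.card G ∣ m) : ZeroSum m n G := by
  intro c hc
  obtain ⟨e, he⟩ := hG
  have he0 : e ≠ 0 := by
    rintro rfl
    omega
  have : NeZero e := ⟨he0⟩
  have : Fintype G := Fintype.ofFinite G
  obtain ⟨g, p, hp, hsum⟩ := all_main' (Fin (m + 1)) (G × ZMod e)
    (fun u v => (c (Fin.castLE hn u) (Fin.castLE hn v), 0))
    (fun x y => by simp only [hc (Fin.castLE hn x) (Fin.castLE hn y)])
    (by rw [Fintype.card_fin, Fintype.card_prod, ZMod.card, ← Nat.card_eq_fintype_card, ← he])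
  obtain ⟨T, hT, hd, hadj, hw⟩ := Pool.Agent.W318.ZT.br0 (m + 1) g p hp
  refine ⟨T, hT, hd, Fin.castLE hn, Fin.castLE_injective hn, ?_⟩
  have h1 := hw G (fun u v => c (Fin.castLE hn u) (Fin.castLE hn v)) (fun u v => hc _ _)
  have h2 := congrArg Prod.fst hsum
  rw [Prod.fst_sum] at h2
  rw [h1]
  refine Eq.trans ?_ h2
  apply Finset.sum_congr _ (fun _ _ => rfl)
  ext v
  simp only [Finset.mem_erase]

theorem mono_of_le {m n : ℕ} (hn : m + 1 ≤ n) : Mono m n := by
  intro c hc
  obtain ⟨g, p, col, hp⟩ := Pool.Agent.W397.ZT.br2 (Fin (m + 1))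
    (fun u v => c (Fin.castLE hn u) (Fin.castLE hn v)) (fun x y => hc _ _) ⟨0⟩
  obtain ⟨T, hT, hd, hadj, hw⟩ := Pool.Agent.W318.ZT.br0 (m + 1) g p
    (fun v hv => ⟨(hp v hv).1, (hp v hv).2.1⟩)
  refine ⟨T, hT, hd, Fin.castLE hn, Fin.castLE_injective hn, col, ?_⟩
  intro u v huv
  rcases (hadj u v).mp huv with ⟨h1, h2⟩ | ⟨h1, h2⟩
  · have := (hp u h1).2.2
    rw [h2] at this
    exact this
  · have := (hp v h1).2.2
    rw [h2] at this
    rw [hc]
    exact this

/-- **Zero-sum trees of diameter at most four for all finite abelian groups.** Let `m ≥ 1` and let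
`G` be a finite abelian group whose order divides `m`. The least `n` such that every `G`-colouring
of the edges of `K_n` has a zero-sum tree with `m` edges and diameter at most `4` is `m + 1`, and
this is also the least `n` such that every `2`-colouring of the edges of `K_n` has a monochromatic
tree with `m` edges and diameter at most `4`: `R(τ_{m+1}(4), G) = R(τ_{m+1}(4), 2) = m + 1`. -/
theorem result (m : ℕ) (hm : 1 ≤ m) (G : Type) [AddCommGroup G] [Finite G]
    (hG : Nat.card G ∣ m) :
    IsLeast {n : ℕ | ZeroSum m n G} (m + 1) ∧ IsLeast {n : ℕ | Mono m n} (m + 1) := by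
  have hno : ∀ n : ℕ, ∀ f : Fin (m + 1) → Fin n, Function.Injective f → m + 1 ≤ n := by
    intro n f hf
    have := Fintype.card_le_of_injective f hf
    simpa only [Fintype.card_fin] using this
  refine ⟨⟨zeroSum_of_le hm le_rfl G hG, fun n hn => ?_⟩, ⟨mono_of_le le_rfl, fun n hn => ?_⟩⟩
  · obtain ⟨_, _, _, f, hf, _⟩ := hn (fun _ _ => 0) (fun _ _ => rfl)
    exact hno n f hf
  · obtain ⟨_, _, _, f, hf, _⟩ := hn (fun _ _ => 0) (fun _ _ => rfl)
    exact hno n f hf

end Pool.Agent.Results.MP_12e153_co.AllAbelianGroups
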